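import Pool.Agent.K1H34.HYC.Stm
import Pool.Agent.Results.MP_b8729f_co.LogarithmicError

/-!
Project HYC, piece FIN: from the vertex labelling to the total labelling (helper10 for helper34).
-/

set_option autoImplicit false

namespace Pool.Agent.K1H10.HYC

open Finset
open Pool.Agent.K1H34.HYC
open Pool.Agent.Results.MP_b8729f_co.LogarithmicError (CircularLabeling)

/-- more labels -/
theorem circ_mono {V : Type} {G : SimpleGraph V} {p N N' : ℕ} (h : CircularLabeling G p N)
    (hN : N ≤ N') : CircularLabeling G p N' := by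
  obtain ⟨fV, fE, h1, h2, h3, h4, h5⟩ := h
  refine ⟨fV, fE, fun v => (h1 v).trans_le hN, fun e he => (h2 e he).trans_le hN, h3, h4,
    fun u v huv => ⟨(h5 u v huv).1, (h5 u v huv).2.trans ?_⟩⟩
  have : (N : ℤ) ≤ N' := by exact_mod_cast hN
  linarith

/-- the edges in conflict -/
def conf {V : Type} (G : SimpleGraph V) (c : V → V → ℕ) (f : V → ℕ) (p : ℕ)
    (hc : ∀ u v, c u v = c v u) : SimpleGraph V where
  Adj u v := G.Adj u v ∧ (near p (f u) (c u v) ∨ near p (f v) (c u v))
  symm := by
    constructor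
    rintro u v ⟨h1, h2⟩
    refine ⟨h1.symm, ?_⟩
    rw [hc v u]
    exact h2.symm
  loopless := ⟨fun u h => G.loopless.irrefl u h.1⟩

theorem deg_eq {V : Type} [Fintype V] (G : SimpleGraph V) [DecidableRel G.Adj] (v : V) :
    G.degree v = dg G univ v := by
  classical
  rw [← SimpleGraph.card_neighborFinset_eq_degree]
  unfold dg
  congr 1
  ext u
  simp

/-- the labelling -/
theorem lab {V : Type} [Fintype V] (G : SimpleGraph V) (p D w N : ℕ) (hp : 1 ≤ p)
    (c : V → V → ℕ) (hc1 : ∀ u v, c u v = c v u) (hc2 : ∀ u v, G.Adj u v → c u v ≤ D)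
    (hc3 : ∀ u v v', G.Adj u v → G.Adj u v' → v ≠ v' → c u v ≠ c u v') (f : V → ℕ)
    (hf1 : ∀ v, f v ≤ D) (hf2 : ∀ u v, G.Adj u v → f u ≠ f v)
    (hload : ∀ x, load G c p univ f x + 2 * p ≤ w) (hN : D + 2 * p + w ≤ N) :
    CircularLabeling G p N := by
  classical
  set Γ := conf G c f p hc1 with hΓ
  have hdeg : ∀ v, Γ.degree v ≤ w := by
    intro v
    refine le_trans ?_ (hload v)
    rw [deg_eq]
    set A : Finset V := univ.filter (fun u => G.Adj v u ∧ near p (f v) (c v u)) with hA
    have h1 : (univ.filter (fun u => Γ.Adj v u)) ⊆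
        (univ.filter (fun u => G.Adj v u ∧ near p (f u) (c v u))) ∪ A := by
      intro u hu
      rw [mem_filter] at hu
      rw [mem_union, hA, mem_filter, mem_filter]
      rcases hu.2.2 with h | h
      · exact Or.inr ⟨mem_univ _, hu.2.1, h⟩
      · exact Or.inl ⟨mem_univ _, hu.2.1, h⟩
    have h2 : A.card ≤ 2 * p := by
      have h3 : (A.image (fun u => c v u)).card = A.card := by
        apply card_image_of_injOn
        intro u hu u' hu' h
        rw [mem_coe, hA, mem_filter] at hu hu'
        by_contra hne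
        exact hc3 v u u' hu.2.1 hu'.2.1 hne h
      have h4 : A.image (fun u => c v u) ⊆ Finset.Ico (f v + 1 - p) (f v + p) := by
        intro k hk
        rw [mem_image] at hk
        obtain ⟨u, hu, rfl⟩ := hk
        rw [hA, mem_filter] at hu
        obtain ⟨_, _, g1, g2⟩ := hu
        rw [mem_Ico]
        omega
      have h5 := card_le_card h4
      rw [h3, Nat.card_Ico] at h5
      omega
    have h6 := (card_le_card h1).trans (card_union_le _ _)
    have e1 : dg Γ univ v = (univ.filter (fun u => Γ.Adj v u)).card := by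
      unfold dg
      congr
    have e2 : load G c p univ f v =
        (univ.filter (fun u => G.Adj v u ∧ near p (f u) (c v u))).card := by
      unfold load
      congr
    rw [e1, e2]
    omega
  obtain ⟨c2, hv1, hv2, hv3⟩ := Pool.Agent.H238R2.HY.vizing Γ w hdeg
  let eL : V → V → ℕ := fun u v => if Γ.Adj u v then D + p + c2 u v else c u v
  have hsymm : ∀ u v, eL u v = eL v u := by
    intro u v
    simp only [eL]
    by_cases h : Γ.Adj u v
    · rw [if_pos h, if_pos h.symm, hv1 u v]
    · rw [if_neg h, if_neg fun h' => h h'.symm, hc1 u v]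
  let fE : Sym2 V → ℕ := fun e => Sym2.lift ⟨eL, hsymm⟩ e
  have hfE : ∀ u v, fE s(u, v) = eL u v := fun u v => Sym2.lift_mk _ _ _
  have hold : ∀ u v, G.Adj u v → ¬ Γ.Adj u v → eL u v = c u v ∧ c u v ≤ D := by
    intro u v h1 h2
    refine ⟨?_, hc2 u v h1⟩
    simp only [eL]
    rw [if_neg h2]
  have hnew : ∀ u v, Γ.Adj u v → eL u v = D + p + c2 u v ∧ c2 u v ≤ w := by
    intro u v h
    refine ⟨?_, hv2 u v h⟩
    simp only [eL]
    rw [if_pos h]
  refine ⟨f, fE, ?_, ?_, ?_, ?_, ?_⟩
  · intro v
    have := hf1 v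
    omega
  · intro e he
    induction e using Sym2.ind with
    | _ u v =>
      rw [SimpleGraph.mem_edgeSet] at he
      rw [hfE]
      by_cases h : Γ.Adj u v
      · obtain ⟨h1, h2⟩ := hnew u v h
        omega
      · obtain ⟨h1, h2⟩ := hold u v he h
        omega
  · exact hf2
  · intro u v v' h1 h2 hne h
    rw [hfE, hfE] at h
    by_cases g1 : Γ.Adj u v
    · obtain ⟨a1, a2⟩ := hnew u v g1
      by_cases g2 : Γ.Adj u v'
      · obtain ⟨b1, b2⟩ := hnew u v' g2
        exact hv3 u v v' g1 g2 hne (by omega)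
      · obtain ⟨b1, b2⟩ := hold u v' h2 g2
        omega
    · obtain ⟨a1, a2⟩ := hold u v h1 g1
      by_cases g2 : Γ.Adj u v'
      · obtain ⟨b1, b2⟩ := hnew u v' g2
        omega
      · obtain ⟨b1, b2⟩ := hold u v' h2 g2
        exact hc3 u v v' h1 h2 hne (by omega)
  · intro u v h1
    rw [hfE]
    have hsu := hf1 u
    by_cases g1 : Γ.Adj u v
    · obtain ⟨a1, a2⟩ := hnew u v g1
      rw [a1]
      push_cast
      rw [abs_of_nonpos (by omega)]
      constructor
      · omega
      · omega
    · obtain ⟨a1, a2⟩ := hold u v h1 g1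
      rw [a1]
      have h3 : ¬ near p (f u) (c u v) := by
        intro h
        exact g1 ⟨h1, Or.inl h⟩
      unfold near at h3
      have h4 : (p : ℤ) ≤ |(f u : ℤ) - (c u v : ℤ)| := by
        rw [le_abs]
        omega
      refine ⟨h4, ?_⟩
      rw [abs_le]
      constructor
      · omega
      · omega

theorem t_FIN : S_COL → S_FIN := by
  classical
  rintro ⟨C0, D0, hcol⟩
  refine ⟨C0 + D0 + 1200, fun V _ G p D hp hD => ?_⟩
  have hpr : (1 : ℝ) ≤ p := by exact_mod_cast hp
  have hdeg : ∀ v, G.degree v ≤ D := fun v => by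
    rw [deg_eq]
    exact hD v
  have hmax : G.maxDegree ≤ D := G.maxDegree_le_of_forall_degree_le D hdeg
  suffices h : CircularLabeling G p (D + (C0 + D0 + 1200) * p) from h
  have hexp : (C0 + D0 + 1200) * p = C0 * p + D0 * p + 1200 * p := by ring
  by_cases hlog : Real.log D < p
  · -- the starting library
    obtain ⟨N, hN, hC, -⟩ :=
      Pool.Agent.Results.MP_b8729f_co.LogarithmicError.result V G p hp
    refine circ_mono hC ?_
    have h1 : Real.log ((G.maxDegree : ℝ) + 1) ≤ 2 * p := by
      have h2 : Real.log ((G.maxDegree : ℝ) + 1) ≤ Real.log ((D : ℝ) + 1) := by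
        apply Real.log_le_log (by positivity)
        have : (G.maxDegree : ℝ) ≤ D := by exact_mod_cast hmax
        linarith
      rcases Nat.eq_zero_or_pos D with h0 | h0
      · rw [h0, Nat.cast_zero, zero_add, Real.log_one] at h2
        linarith
      · have hDr : (1 : ℝ) ≤ D := by exact_mod_cast h0
        have h3 : Real.log ((D : ℝ) + 1) ≤ Real.log (2 * D) := by
          apply Real.log_le_log (by positivity)
          linarith
        rw [Real.log_mul (by norm_num) (by positivity)] at h3
        have h4 := Real.log_two_lt_d9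
        linarith
    have h5 : (G.maxDegree : ℝ) ≤ D := by exact_mod_cast hmax
    have h6 : (N : ℝ) ≤ ((D + (C0 + D0 + 1200) * p : ℕ) : ℝ) := by
      rw [hexp]
      push_cast
      have h7 : (0 : ℝ) ≤ (C0 : ℝ) * p := by positivity
      have h8 : (0 : ℝ) ≤ (D0 : ℝ) * p := by positivity
      linarith
    exact_mod_cast h6
  · rw [not_lt] at hlog
    rcases Nat.lt_or_ge D D0 with hlt | hge
    · -- few labels
      refine circ_mono (Pool.Agent.H238R2.HY.trivial_bound G p hp) ?_
      have h1 : D0 ≤ D0 * p := Nat.le_mul_of_pos_right _ (by omega)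
      rw [hexp]
      omega
    · -- the main case
      obtain ⟨c, hc1, hc2, hc3⟩ := Pool.Agent.H238R2.HY.vizing G D hdeg
      obtain ⟨f, hf1, hf2, hf3⟩ := hcol D hge p hp hlog V G c hD
        (fun x y z h1 h2 h => by
          by_contra hne
          exact hc3 x y z h1 h2 hne h) hc1
      refine lab G p D (C0 * p + 2 * p) _ hp c hc1 hc2 hc3 f hf1 hf2
        (fun x => by have := hf3 x; omega) ?_
      rw [hexp]
      omega

end Pool.Agent.K1H10.HYC
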